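import Pool.Agent.helper78.EQ.Spec

set_option autoImplicit false

open Complex MeasureTheory Set Metric

namespace Pool.Agent.EQ

open Pool.Agent.helper6.LD

/-- **THR** (Hadamard three circles). -/
theorem THR : THR_stmt := by
  intro f c r₁ r₂ r₃ M₁ M₃ hr1 h12 h23 hM1 hM13 hd hb1 hb3 z hz
  have hM3 : 0 < M₃ := lt_of_lt_of_le hM1 hM13
  have hr2 : 0 < r₂ := lt_of_lt_of_le hr1 h12
  have hr3 : 0 < r₃ := hr2.trans h23
  have hmono : ∀ a b : ℝ, a ≤ b → M₁ ^ (1 - a) * M₃ ^ a ≤ M₁ ^ (1 - b) * M₃ ^ b := by
    intro a b hab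
    have e : ∀ x : ℝ, M₁ ^ (1 - x) * M₃ ^ x = M₁ * (M₃ / M₁) ^ x := by
      intro x
      rw [Real.rpow_sub hM1, Real.rpow_one, Real.div_rpow hM3.le hM1.le]
      ring
    rw [e a, e b]
    apply mul_le_mul_of_nonneg_left _ hM1.le
    exact Real.rpow_le_rpow_of_exponent_le (by rw [le_div_iff₀ hM1]; linarith) hab
  have hlog2 : 0 ≤ Real.log (r₂ / r₁) := by
    apply Real.log_nonneg
    rw [le_div_iff₀ hr1]
    linarith
  rcases le_or_gt ‖z - c‖ r₁ with hz1 | hz1
  · have hlog3 : 0 ≤ Real.log (r₃ / r₁) := by
      apply Real.log_nonneg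
      rw [le_div_iff₀ hr1]
      linarith
    calc ‖f z‖ ≤ M₁ := hb1 z (by rw [mem_closedBall, dist_eq_norm]; exact hz1)
      _ = M₁ ^ (1 - (0 : ℝ)) * M₃ ^ (0 : ℝ) := by simp
      _ ≤ _ := hmono _ _ (div_nonneg hlog2 hlog3)
  · have hz2 : ‖z - c‖ ≤ r₂ := by
      rw [← dist_eq_norm]
      exact mem_closedBall.1 hz
    have hz0 : 0 < ‖z - c‖ := hr1.trans hz1
    have hzc : z - c ≠ 0 := norm_pos_iff.1 hz0
    have key : ∀ r' : ℝ, r₂ < r' → r' < r₃ →
        ‖f z‖ ≤ M₁ ^ (1 - Real.log (r₂ / r₁) / Real.log (r' / r₁)) *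
          M₃ ^ (Real.log (r₂ / r₁) / Real.log (r' / r₁)) := by
      intro r' hr2' hr3'
      have hr'0 : 0 < r' := hr2.trans hr2'
      have hul : Real.log r₁ < Real.log r' := Real.log_lt_log hr1 (by linarith)
      have hlt : 0 < Real.log (r' / r₁) := by
        rw [Real.log_div hr'0.ne' hr1.ne']
        linarith
      have hnorm : ∀ w : ℂ, ‖Complex.exp w‖ = Real.exp w.re := fun w => Complex.norm_exp w
      have hmaps : ∀ w : ℂ, w.re ≤ Real.log r' → c + Complex.exp w ∈ ball c r₃ := by
        intro w hw
        rw [mem_ball, dist_eq_norm, add_sub_cancel_left, hnorm]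
        calc Real.exp w.re ≤ Real.exp (Real.log r') := Real.exp_le_exp.2 hw
          _ = r' := Real.exp_log hr'0
          _ < r₃ := hr3'
      have hg : DiffContOnCl ℂ (fun w : ℂ => f (c + Complex.exp w))
          (Complex.HadamardThreeLines.verticalStrip (Real.log r₁) (Real.log r')) := by
        apply DifferentiableOn.diffContOnCl
        intro w hw
        have hw' : w.re ≤ Real.log r' := by
          have h1 : closure (Complex.HadamardThreeLines.verticalStrip (Real.log r₁) (Real.log r')) ⊆
              re ⁻¹' Iic (Real.log r') := by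
            apply closure_minimal
            · intro x hx
              exact hx.2.le
            · exact isClosed_Iic.preimage Complex.continuous_re
          exact h1 hw
        have h2 : DifferentiableAt ℂ f (c + Complex.exp w) :=
          hd.differentiableAt (isOpen_ball.mem_nhds (hmaps w hw'))
        have h3 : DifferentiableAt ℂ (fun w : ℂ => c + Complex.exp w) w :=
          (differentiableAt_const c).add Complex.differentiableAt_exp
        exact (h2.comp w h3).differentiableWithinAt
      have hzw : (Complex.log (z - c)).re = Real.log ‖z - c‖ := Complex.log_re _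
      have hmain := Complex.HadamardThreeLines.norm_le_interp_of_mem_verticalClosedStrip'
        (f := fun w : ℂ => f (c + Complex.exp w)) (z := Complex.log (z - c)) (a := M₁) (b := M₃)
        hul ?_ hg ?_ ?_ ?_
      · have e1 : c + Complex.exp (Complex.log (z - c)) = z := by
          rw [Complex.exp_log hzc, add_sub_cancel]
        rw [e1, hzw] at hmain
        refine hmain.trans ?_
        have e2 : Real.log r' - Real.log r₁ = Real.log (r' / r₁) :=
          (Real.log_div hr'0.ne' hr1.ne').symm
        rw [e2]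
        apply hmono
        apply div_le_div_of_nonneg_right _ hlt.le
        rw [Real.log_div hr2.ne' hr1.ne']
        have := Real.log_le_log hz0 hz2
        linarith
      · refine ⟨?_, ?_⟩
        · rw [hzw]
          exact Real.log_le_log hr1 hz1.le
        · rw [hzw]
          exact Real.log_le_log hz0 (hz2.trans hr2'.le)
      · refine ⟨M₃, ?_⟩
        rintro _ ⟨w, hw, rfl⟩
        exact hb3 _ (hmaps w hw.2)
      · intro w hw
        have hw' : w.re = Real.log r₁ := hw
        apply hb1
        rw [mem_closedBall, dist_eq_norm, add_sub_cancel_left, hnorm, hw', Real.exp_log hr1]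
      · intro w hw
        have hw' : w.re = Real.log r' := hw
        exact hb3 _ (hmaps w hw'.le)
    have hlt3 : 0 < Real.log (r₃ / r₁) := by
      apply Real.log_pos
      rw [lt_div_iff₀ hr1]
      linarith
    have hcont : ContinuousAt (fun r' : ℝ =>
        M₁ ^ (1 - Real.log (r₂ / r₁) / Real.log (r' / r₁)) *
          M₃ ^ (Real.log (r₂ / r₁) / Real.log (r' / r₁))) r₃ := by
      have c1 : ContinuousAt (fun r' : ℝ => Real.log (r₂ / r₁) / Real.log (r' / r₁)) r₃ := by
        have c0 : ContinuousAt (fun r' : ℝ => Real.log (r' / r₁)) r₃ := by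
          apply ContinuousAt.log
          · exact continuousAt_id.div_const _
          · exact (div_pos hr3 hr1).ne'
        exact ContinuousAt.div continuousAt_const c0 hlt3.ne'
      apply ContinuousAt.mul
      · exact ContinuousAt.rpow continuousAt_const (continuousAt_const.sub c1) (Or.inl hM1.ne')
      · exact ContinuousAt.rpow continuousAt_const c1 (Or.inl hM3.ne')
    refine ge_of_tendsto (hcont.tendsto.mono_left (nhdsWithin_le_nhds (s := Iio r₃))) ?_
    filter_upwards [Ioo_mem_nhdsLT h23] with r' hr'
    exact key r' hr'.1 hr'.2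

end Pool.Agent.EQ
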